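import Pool.Agent.ZES.StmtsB

/-!
# Squad ZES, row CAU (helper67): the Cauchy estimate
-/

set_option autoImplicit false

open Filter Topology

namespace Pool.Agent.ZES.H67

open Pool.Agent.ZES

theorem cau : CauStmt := by
  intro V _ _ f hf x C hC v
  by_cases hv : v = 0
  · rw [hv, map_zero, norm_zero, norm_zero, mul_zero]
  have hvp : 0 < ‖v‖ := norm_pos_iff.2 hv
  have h1 : HasDerivAt (fun ζ : ℂ => x + ζ • v) v 0 := by
    have h2 := ((hasDerivAt_id (0 : ℂ)).smul_const v).const_add x
    simpa using h2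
  have h2 : HasDerivAt (fun ζ : ℂ => f (x + ζ • v)) (fderiv ℂ f x v) 0 := by
    have h3 : HasFDerivAt f (fderiv ℂ f x) (x + (0 : ℂ) • v) := by
      rw [zero_smul, add_zero]
      exact (hf x).hasFDerivAt
    exact h3.comp_hasDerivAt (0 : ℂ) h1
  have h3 : Differentiable ℂ (fun ζ : ℂ => f (x + ζ • v)) := by
    refine hf.comp ?_
    exact (differentiable_const x).add (differentiable_id.smul_const v)
  have h4 := Complex.norm_deriv_le_of_forall_mem_sphere_norm_le (c := (0 : ℂ))
    (R := ‖v‖⁻¹) (C := C) (f := fun ζ : ℂ => f (x + ζ • v)) (inv_pos.2 hvp) h3.diffContOnCl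
    (fun ζ hζ => by
      rw [mem_sphere_zero_iff_norm] at hζ
      apply hC
      rw [add_sub_cancel_left, norm_smul, hζ, inv_mul_cancel₀ hvp.ne'])
  rw [h2.deriv, div_inv_eq_mul] at h4
  exact h4

end Pool.Agent.ZES.H67
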