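import Pool.Agent.ZES.StmtsL

/-!
# Squad ZES, row LIC (helper67): a closed subgroup without lines is discrete
-/

set_option autoImplicit false

open Filter Topology

namespace Pool.Agent.ZES.H67

open Pool.Agent.ZES

theorem lic : LicStmt := by
  intro E _ _ _ Z hZ hlin
  have key : ∃ ε > 0, ∀ z ∈ Z, ‖z‖ < ε → z = 0 := by
    by_contra hcon
    push Not at hcon
    have h1 : ∀ m : ℕ, ∃ z ∈ Z, ‖z‖ < 1 / ((m : ℝ) + 1) ∧ z ≠ 0 :=
      fun m => hcon (1 / ((m : ℝ) + 1)) (by positivity)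
    choose z hzZ hzs hz0 using h1
    have hzp : ∀ m, 0 < ‖z m‖ := fun m => norm_pos_iff.2 (hz0 m)
    have hz : Tendsto (fun m => ‖z m‖) atTop (𝓝 0) :=
      squeeze_zero (fun m => norm_nonneg _) (fun m => (hzs m).le)
        tendsto_one_div_add_atTop_nhds_zero_nat
    obtain ⟨u, hu, φ, hφ, hlim⟩ := (isCompact_sphere (0 : E) 1).tendsto_subseq
      (x := fun m => ‖z m‖⁻¹ • z m) (fun m => by
        rw [mem_sphere_zero_iff_norm, norm_smul, norm_inv, norm_norm,
          inv_mul_cancel₀ (hzp m).ne'])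
    have hu1 : ‖u‖ = 1 := mem_sphere_zero_iff_norm.1 hu
    have hu0 : u = 0 := by
      apply hlin
      intro t
      have h2 : Tendsto (fun m => (((⌊t / ‖z (φ m)‖⌋ : ℤ) : ℝ) * ‖z (φ m)‖) •
          (‖z (φ m)‖⁻¹ • z (φ m))) atTop (𝓝 (t • u)) := by
        refine Tendsto.smul ?_ hlim
        rw [tendsto_iff_norm_sub_tendsto_zero]
        refine squeeze_zero (fun m => norm_nonneg _) (fun m => ?_) (hz.comp hφ.tendsto_atTop)
        show ‖((⌊t / ‖z (φ m)‖⌋ : ℤ) : ℝ) * ‖z (φ m)‖ - t‖ ≤ ‖z (φ m)‖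
        have h3 := hzp (φ m)
        have h4 := Int.floor_le (t / ‖z (φ m)‖)
        have h5 := Int.lt_floor_add_one (t / ‖z (φ m)‖)
        rw [le_div_iff₀ h3] at h4
        rw [div_lt_iff₀ h3] at h5
        rw [Real.norm_eq_abs, abs_le]
        constructor
        · linarith
        · linarith
      refine hZ.mem_of_tendsto h2 (Eventually.of_forall fun m => ?_)
      rw [smul_smul, mul_assoc, mul_inv_cancel₀ (hzp (φ m)).ne', mul_one]
      rw [Int.cast_smul_eq_zsmul]
      exact Z.zsmul_mem (hzZ (φ m)) _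
    rw [hu0, norm_zero] at hu1
    exact zero_ne_one hu1
  obtain ⟨ε, hε, hk⟩ := key
  refine discreteTopology_of_isOpen_singleton_zero ?_
  rw [Metric.isOpen_singleton_iff]
  refine ⟨ε, hε, fun y hy => ?_⟩
  have h1 : ‖(y : E)‖ < ε := by
    have h2 : dist y 0 = ‖(y : E)‖ := by
      rw [Subtype.dist_eq, ZeroMemClass.coe_zero, dist_zero_right]
    rwa [h2] at hy
  exact Subtype.ext (hk y y.2 h1)

end Pool.Agent.ZES.H67
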